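import Pool.Agent.W680.WH.Stm2

set_option autoImplicit false

open scoped ComplexConjugate InnerProductSpace

namespace Pool.Agent.W54.WH

open Pool.Agent.W680.WH

theorem mul_conj_one {u : ℂ} (h : ‖u‖ = 1) : u * conj u = 1 := by
  rw [Complex.mul_conj, Complex.normSq_eq_norm_sq, h]; simp

theorem one_sub_ne {w : ℂ} (h : ‖w‖ < 1) : 1 - w ≠ 0 := by
  intro h0
  have : w = 1 := (sub_eq_zero.1 h0).symm
  rw [this] at h; simp at h

theorem norm_eq1 {u a b : ℂ} (hu : ‖u‖ = 1) : ‖u - b * conj a‖ = ‖1 - conj b * a * u‖ := by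
  have h : u - b * conj a = u * conj (1 - conj b * a * u) := by
    simp only [map_sub, map_one, map_mul, Complex.conj_conj]
    linear_combination (b * conj a) * (mul_conj_one hu)
  rw [h, norm_mul, hu, one_mul, RCLike.norm_conj]

theorem norm_id {u a b : ℂ} (hu : ‖u‖ = 1) :
    ‖u - b * conj a‖ ^ 2 - ‖u * a - b‖ ^ 2 = (1 - ‖a‖ ^ 2) * (1 - ‖b‖ ^ 2) := by
  have h := mul_conj_one hu
  have key : (((‖u - b * conj a‖ ^ 2 - ‖u * a - b‖ ^ 2 : ℝ)) : ℂ)
      = (((1 - ‖a‖ ^ 2) * (1 - ‖b‖ ^ 2) : ℝ) : ℂ) := by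
    push_cast
    have e : ∀ w : ℂ, ((‖w‖ : ℂ)) ^ 2 = w * conj w := by
      intro w; rw [Complex.mul_conj, Complex.normSq_eq_norm_sq]; push_cast; rfl
    rw [e, e, e, e]
    simp only [map_sub, map_mul, Complex.conj_conj]
    linear_combination (1 - a * conj a) * h
  exact_mod_cast key

theorem par : S_PAR := by
  intro ψ δ hδ
  set d := ψ.c with hd
  set b := ψ.a with hb
  have hdn : ‖d‖ = 1 := ψ.hc
  have hbn : ‖b‖ < 1 := ψ.ha
  have hb2 : (1 : ℂ) - b * conj b ≠ 0 := by
    apply one_sub_ne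
    rw [norm_mul, RCLike.norm_conj]
    nlinarith [norm_nonneg b]
  have hdd : conj d * d = 1 := by rw [mul_comm]; exact mul_conj_one hdn
  -- continuity
  let F : ℂ × ℂ → ℂ := fun q => (conj d * q.1 * q.2 - b) / (conj d * q.1 - b * conj q.2)
  let G : ℂ × ℂ → ℂ := fun q => (conj d * q.1 - b * conj q.2) / (1 - conj b * q.2 * (conj d * q.1))
  have hcont2 : ContinuousAt (fun q : ℂ × ℂ => conj q.2) (d, b) :=
    (Complex.continuous_conj.comp continuous_snd).continuousAt
  have hF : ContinuousAt F (d, b) := by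
    refine ContinuousAt.div ?_ ?_ ?_
    · exact (((continuous_const.mul continuous_fst).mul continuous_snd).sub
        continuous_const).continuousAt
    · exact ((continuous_const.mul continuous_fst).continuousAt).sub
        (continuousAt_const.mul hcont2)
    · show conj d * d - b * conj b ≠ 0
      rw [hdd]; exact hb2
  have hG : ContinuousAt G (d, b) := by
    refine ContinuousAt.div ?_ ?_ ?_
    · exact ((continuous_const.mul continuous_fst).continuousAt).sub
        (continuousAt_const.mul hcont2)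
    · exact (continuous_const.sub ((continuous_const.mul continuous_snd).mul
        (continuous_const.mul continuous_fst))).continuousAt
    · show 1 - conj b * b * (conj d * d) ≠ 0
      rw [hdd, mul_one, mul_comm]; exact hb2
  have hF0 : F (d, b) = 0 := by
    show (conj d * d * b - b) / _ = 0
    rw [hdd, one_mul, sub_self, zero_div]
  have hG0 : G (d, b) = 1 := by
    show (conj d * d - b * conj b) / (1 - conj b * b * (conj d * d)) = 1
    rw [hdd, mul_one, mul_comm (conj b) b]
    exact div_self hb2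
  obtain ⟨η1, hη1, h1⟩ := Metric.continuousAt_iff.1 hF δ hδ
  obtain ⟨η2, hη2, h2⟩ := Metric.continuousAt_iff.1 hG δ hδ
  refine ⟨min η1 η2, lt_min hη1 hη2, ?_⟩
  intro φ hφc hφa
  have hdist : dist (φ.c, φ.a) (d, b) < min η1 η2 := by
    rw [Prod.dist_eq, dist_eq_norm, dist_eq_norm]
    exact max_lt hφc hφa
  have h1' := h1 (lt_of_lt_of_le hdist (min_le_left _ _))
  have h2' := h2 (lt_of_lt_of_le hdist (min_le_right _ _))
  rw [hF0, dist_zero_right] at h1'
  rw [hG0, dist_eq_norm] at h2'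
  obtain ⟨c, hc⟩ : ∃ c, c = φ.c := ⟨_, rfl⟩
  obtain ⟨a, ha⟩ : ∃ a, a = φ.a := ⟨_, rfl⟩
  have hcn : ‖c‖ = 1 := by rw [hc]; exact φ.hc
  have han : ‖a‖ < 1 := by rw [ha]; exact φ.ha
  obtain ⟨u, hu⟩ : ∃ u, u = conj d * c := ⟨_, rfl⟩
  have h1'' : ‖(u * a - b) / (u - b * conj a)‖ < δ := by rw [hu, hc, ha]; exact h1'
  have h2'' : ‖(u - b * conj a) / (1 - conj b * a * u) - 1‖ < δ := by
    rw [hu, hc, ha]; exact h2'
  have hun : ‖u‖ = 1 := by rw [hu, norm_mul, RCLike.norm_conj, hdn, hcn, one_mul]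
  have huu := mul_conj_one hun
  have hD1 : 1 - conj b * a * u ≠ 0 := by
    apply one_sub_ne
    rw [norm_mul, norm_mul, hun, RCLike.norm_conj, mul_one]
    nlinarith [norm_nonneg b, norm_nonneg a]
  have hD2 : u - b * conj a ≠ 0 := by
    rw [← norm_pos_iff, norm_eq1 hun, norm_pos_iff]; exact hD1
  have hαlt : ‖(u * a - b) / (u - b * conj a)‖ < 1 := by
    rw [norm_div, div_lt_one (norm_pos_iff.2 hD2)]
    have h3 := norm_id (u := u) (a := a) (b := b) hun
    have h4 : 0 < (1 - ‖a‖ ^ 2) * (1 - ‖b‖ ^ 2) := by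
      apply mul_pos
      · nlinarith [norm_nonneg a]
      · nlinarith [norm_nonneg b]
    apply lt_of_pow_lt_pow_left₀ 2 (norm_nonneg _)
    linarith
  have hχc : ‖(u - b * conj a) / (1 - conj b * a * u)‖ = 1 := by
    rw [norm_div, norm_eq1 hun, div_self (norm_ne_zero_iff.2 hD1)]
  obtain ⟨α, hαd⟩ : ∃ α, α = (u * a - b) / (u - b * conj a) := ⟨_, rfl⟩
  obtain ⟨κ, hκd⟩ : ∃ κ, κ = (u - b * conj a) / (1 - conj b * a * u) := ⟨_, rfl⟩
  have hα : α * (u - b * conj a) = u * a - b := by rw [hαd, div_mul_cancel₀ _ hD2]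
  have hκ : κ * (1 - conj b * a * u) = u - b * conj a := by rw [hκd, div_mul_cancel₀ _ hD1]
  rw [← hαd] at h1'' hαlt
  rw [← hκd] at h2'' hχc
  refine ⟨⟨κ, α, hχc, hαlt⟩, ?_, h2'', h1''⟩
  intro z hz
  have hαc : conj α * (conj u - conj b * a) = conj u * conj a - conj b := by
    have := congrArg (starRingEnd ℂ) hα
    simpa only [map_mul, map_sub, Complex.conj_conj] using this
  have hαP : conj α * (1 - conj b * a * u) = conj a - u * conj b := by
    linear_combination u * hαc + (conj a - conj α) * huu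
  have hden : 1 - conj α * z ≠ 0 := by
    apply one_sub_ne
    rw [norm_mul, RCLike.norm_conj]
    nlinarith [norm_nonneg z, norm_nonneg α]
  have h5 : (1 - conj a * z) + conj b * u * (z - a)
      = (1 - conj b * a * u) * (1 - conj α * z) := by
    linear_combination z * hαP
  have hD : (1 - conj a * z) + conj b * u * (z - a) ≠ 0 := by
    rw [h5]; exact mul_ne_zero hD1 hden
  have haz : 1 - conj a * z ≠ 0 := by
    apply one_sub_ne
    rw [norm_mul, RCLike.norm_conj]
    nlinarith [norm_nonneg z, norm_nonneg a]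
  have hN : κ * (z - α) * (1 - conj b * a * u) = u * (z - a) + b * (1 - conj a * z) := by
    linear_combination (z - α) * hκ - hα
  have hact : Mob.act ⟨κ, α, hχc, hαlt⟩ z = (u * (z - a) + b * (1 - conj a * z)) /
        ((1 - conj a * z) + conj b * u * (z - a)) := by
    show κ * ((z - α) / (1 - conj α * z)) = _
    rw [← mul_div_assoc, div_eq_div_iff hden hD, h5]
    linear_combination (1 - conj α * z) * hN
  rw [hact]
  have hgoal : φ.act z = c * ((z - a) / (1 - conj a * z)) := by rw [hc, ha]; rfl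
  rw [hgoal]
  show d * (((u * (z - a) + b * (1 - conj a * z)) / ((1 - conj a * z) + conj b * u * (z - a)) - b) /
    (1 - conj b * ((u * (z - a) + b * (1 - conj a * z)) /
      ((1 - conj a * z) + conj b * u * (z - a))))) = c * ((z - a) / (1 - conj a * z))
  obtain ⟨D, hDdef⟩ : ∃ D, D = (1 - conj a * z) + conj b * u * (z - a) := ⟨_, rfl⟩
  rw [← hDdef] at hD ⊢
  have e1 : (u * (z - a) + b * (1 - conj a * z)) / D - b = (u * (z - a) * (1 - b * conj b)) / D := by
    rw [eq_div_iff hD, sub_mul, div_mul_cancel₀ _ hD, hDdef]; ring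
  have e2 : 1 - conj b * ((u * (z - a) + b * (1 - conj a * z)) / D)
      = ((1 - conj a * z) * (1 - b * conj b)) / D := by
    rw [eq_div_iff hD, sub_mul, mul_assoc, div_mul_cancel₀ _ hD, hDdef]; ring
  rw [e1, e2, div_div_div_cancel_right₀ hD, mul_div_mul_right _ _ hb2, mul_div_assoc, ← mul_assoc,
    hu, ← mul_assoc, mul_conj_one hdn, one_mul]

end Pool.Agent.W54.WH
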